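import Mathlib
import Pool.Agent.W42.RG.Defs2

set_option autoImplicit false
set_option linter.unusedSectionVars false
set_option linter.unusedVariables false

/-!
The limit functional is represented by a vector of the closed span of the eigenfunctions of every
direction.
-/

namespace Pool.Agent.W978.LYRL

open Finset Filter Topology MeasureTheory Pool.Agent.W42.RN Pool.Agent.W42.RL Pool.Agent.W42.RG

variable {X : Type} [MeasurableSpace X] {μ : Measure X} [IsProbabilityMeasure μ]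

/-- classes of bounded functions are dense -/
theorem dense_bd : Dense {w : Lp ℂ 2 μ | ∃ (h : X → ℂ) (hh : Bd h), w = toL hh} := by
  have h1 := Lp.simpleFunc.denseRange (E := ℂ) (μ := μ) (p := 2) (by norm_num)
  refine Dense.mono ?_ h1
  rintro _ ⟨s, rfl⟩
  have hb : Bd (Lp.simpleFunc.toSimpleFunc s : X → ℂ) := by
    obtain ⟨C, hC⟩ := (Lp.simpleFunc.toSimpleFunc s).exists_forall_norm_le
    exact ⟨(Lp.simpleFunc.toSimpleFunc s).measurable, C, hC⟩
  refine ⟨_, hb, ?_⟩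
  apply Lp.ext
  exact (Lp.simpleFunc.toSimpleFunc_eq_toFun s).symm.trans (toL_coe (μ := μ) hb).symm

theorem norm_toL_le {h : X → ℂ} (hh : Bd h) (K : ℝ) (hK0 : 0 ≤ K) (hK : ∀ p, ‖h p‖ ≤ K) :
    ‖(toL hh : Lp ℂ 2 μ)‖ ≤ K := by
  have h1 := norm_sq_int (toL hh : Lp ℂ 2 μ)
  have h2 : ∫ p, ‖(toL hh : Lp ℂ 2 μ) p‖ ^ 2 ∂μ = ∫ p, ‖h p‖ ^ 2 ∂μ := by
    apply integral_congr_ae
    filter_upwards [toL_coe (μ := μ) hh] with p g1
    rw [g1]
  have h3 : ∫ p, ‖h p‖ ^ 2 ∂μ ≤ ∫ _p, K ^ 2 ∂μ := by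
    apply integral_mono
    · have := (hh.mul hh).int (μ := μ)
      refine this.norm.congr (Eventually.of_forall fun p => ?_)
      simp only [norm_mul]; ring
    · exact integrable_const _
    · intro p
      exact pow_le_pow_left₀ (norm_nonneg _) (hK p) 2
  rw [integral_const, probReal_univ, one_smul] at h3
  rw [h2] at h1
  rw [← h1] at h3
  exact (pow_le_pow_iff_left₀ (norm_nonneg _) hK0 (by norm_num)).1 h3

/-- weak limits along ultrafilters -/
theorem weak_lim {H : Type} [NormedAddCommGroup H] [InnerProductSpace ℂ H] [CompleteSpace H]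
    {α : Type} (V : Ultrafilter α) (g : α → H) (R : ℝ) (hg : ∀ a, ‖g a‖ ≤ R) :
    ∃ G : H, ∀ w, Tendsto (fun a => inner ℂ (g a) w) V (𝓝 (inner ℂ G w)) := by
  have hlim : ∀ w : H, ∃ x, Tendsto (fun a => inner ℂ (g a) w) V (𝓝 x) := by
    intro w
    apply ultra_lim V _ (R * ‖w‖)
    intro a
    exact (norm_inner_le_norm _ _).trans (mul_le_mul_of_nonneg_right (hg a) (norm_nonneg _))
  choose Λ hΛ using hlim
  let Λ' : H →ₗ[ℂ] ℂ :=
    { toFun := Λ
      map_add' := by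
        intro v w
        refine tendsto_nhds_unique (hΛ (v + w)) (((hΛ v).add (hΛ w)).congr fun a => ?_)
        rw [inner_add_right]
      map_smul' := by
        intro c w
        refine tendsto_nhds_unique (hΛ (c • w)) (((hΛ w).const_mul c).congr fun a => ?_)
        rw [inner_smul_right] }
  have hb : ∀ w, ‖Λ' w‖ ≤ R * ‖w‖ := by
    intro w
    refine le_of_tendsto (hΛ w).norm (Eventually.of_forall fun a => ?_)
    exact (norm_inner_le_norm _ _).trans (mul_le_mul_of_nonneg_right (hg a) (norm_nonneg _))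
  let Λ'' : H →L[ℂ] ℂ := Λ'.mkContinuous R hb
  refine ⟨(InnerProductSpace.toDual ℂ H).symm Λ'', fun w => ?_⟩
  rw [InnerProductSpace.toDual_symm_apply]
  exact hΛ w

theorem norm_lim {H : Type} [NormedAddCommGroup H] [InnerProductSpace ℂ H]
    {α : Type} (V : Ultrafilter α) (g : α → H) (R : ℝ) (hR : 0 ≤ R) (hg : ∀ a, ‖g a‖ ≤ R)
    (G : H) (hG : ∀ w, Tendsto (fun a => inner ℂ (g a) w) V (𝓝 (inner ℂ G w))) : ‖G‖ ≤ R := by
  have h1 : ‖inner ℂ G G‖ ≤ R * ‖G‖ := by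
    refine le_of_tendsto (hG G).norm (Eventually.of_forall fun a => ?_)
    exact (norm_inner_le_norm _ _).trans (mul_le_mul_of_nonneg_right (hg a) (norm_nonneg _))
  rw [inner_self_eq_norm_sq_to_K] at h1
  have h3 : ‖((‖G‖ : ℂ)) ^ 2‖ = ‖G‖ ^ 2 := by
    rw [norm_pow, Complex.norm_real, Real.norm_eq_abs, abs_of_nonneg (norm_nonneg _)]
  have h4 : ‖G‖ ^ 2 ≤ R * ‖G‖ := by
    rw [← h3]; exact h1
  by_contra hcon
  push Not at hcon
  have h2 := norm_nonneg G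
  nlinarith

theorem repr {P : ℤ → X → X} (hP : Act μ P) {N : ℕ} {U : Ultrafilter (Fin N → ℤ)} (j : Fin N)
    {f : Fin N → X → ℂ} (hf : ∀ i, Bd (f i)) :
    ∃ G : Lp ℂ 2 μ, (∀ (h : X → ℂ) (hh : Bd h),
      L μ P U (Function.update f j h) = inner ℂ G (toL hh)) ∧
    ∀ K : ℝ, 1 ≤ K → (∀ i p, ‖f i p‖ ≤ K) → ‖G‖ ≤ K ^ N := by
  have hB : ∀ n : Fin N → ℤ,
      Bd fun q => (starRingEnd ℂ) (∏ i ∈ univ.erase j, f i (P (n i - n j) q)) := fun n =>
    (Bd.tuple hP hf (fun i => n i - n j) (univ.erase j)).conj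
  have hn : ∀ K : ℝ, 1 ≤ K → (∀ i p, ‖f i p‖ ≤ K) → ∀ n, ‖(toL (hB n) : Lp ℂ 2 μ)‖ ≤ K ^ N := by
    intro K hK1 hK n
    apply norm_toL_le (hB n) _ (by positivity)
    intro p
    rw [RCLike.norm_conj, norm_prod]
    calc ∏ i ∈ univ.erase j, ‖f i (P (n i - n j) p)‖ ≤ ∏ _i ∈ univ.erase j, K :=
          prod_le_prod (fun _ _ => norm_nonneg _) (fun i _ => hK i _)
      _ = K ^ (N - 1) := by
          rw [prod_const, card_erase_of_mem (mem_univ j), card_univ, Fintype.card_fin]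
      _ ≤ K ^ N := pow_le_pow_right₀ hK1 (Nat.sub_le _ _)
  obtain ⟨K₀, hK₀1, hK₀⟩ := Bd.common hf
  obtain ⟨G, hG⟩ := weak_lim U (fun n => (toL (hB n) : Lp ℂ 2 μ)) (K₀ ^ N) (hn K₀ hK₀1 hK₀)
  refine ⟨G, fun h hh => ?_, fun K hK1 hK => ?_⟩
  · apply L_eq (Bd.update hf j hh)
    refine (hG (toL hh)).congr fun n => ?_
    rw [C_shift hP (Bd.update hf j hh) n (n j), inner_int]
    apply integral_congr_ae
    filter_upwards [toL_coe (μ := μ) hh, toL_coe (μ := μ) (hB n)] with p g1 g2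
    rw [g1, g2, Complex.conj_conj, prod_update f j h (fun i => P (n i - n j) p), sub_self, hP.zero]
    rfl
  · exact norm_lim U _ _ (by positivity) (hn K hK1 hK) G hG

theorem flow_of_RF {T : X ≃ᵐ X} {Z : ℂ → X → X} {ω : ℂ} (hZ : RF μ T Z ω) (η : ℂ) :
    Flow μ (fun u : ℝ => Z (u • η)) := by
  refine ⟨fun u => hZ.mp _, ?_, fun u v => hZ.line η u v, fun f hf u => ?_⟩
  · have := hZ.zero
    simpa using this
  · have h1 := hZ.cont f hf (u • η)
    have h2 : Tendsto (fun v : ℝ => v • η) (𝓝 u) (𝓝 (u • η)) :=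
      (continuous_id.smul continuous_const).tendsto u
    exact h1.comp h2

/-- a vector with vanishing correlations -/
theorem avg_zero {z : ℝ → X → X} (hz : Flow μ z) (v : Lp ℂ 2 μ)
    (h : ∀ f : X → ℂ, ∀ hf : f ∈ EigF μ z, inner ℂ v (toL hf.1) = 0) (ε : ℝ) (hε : 0 < ε) :
    ∃ M : ℕ, 0 < M ∧ ∑ a ∈ range M, ∑ b ∈ range M,
      ‖inner ℂ (KO hz (b : ℝ) v) (KO hz (a : ℝ) v)‖ ≤ ε * (M : ℝ) ^ 2 := by
  obtain ⟨V, hV1, hVn⟩ := KO_unitary hz
  have hwm := Pool.Agent.W880.BQ.wm (Lp ℂ 2 μ) V v (by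
    intro θ w hw
    rw [hV1] at hw
    have h1 := orth hz v h θ w hw
    rw [← inner_conj_symm, h1, map_zero])
  obtain ⟨L0, hL0⟩ := hwm ε hε
  refine ⟨max L0 1, by omega, ?_⟩
  set M := max L0 1 with hM
  have hterm : ∀ a b : ℕ, ‖inner ℂ (KO hz (b : ℝ) v) (KO hz (a : ℝ) v)‖ =
      ‖inner ℂ ((V ^ (-(b : ℤ) + (a : ℤ))) v) v‖ := by
    intro a b
    rw [← hVn, ← hVn, Pool.Agent.W880.BQ.inner_zpow]
    unfold Pool.Agent.W880.BQ.cc
    rw [norm_inner_symm]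
    congr 3
    ring_nf
  rw [sum_comm]
  have hrow : ∀ b ∈ range M, ∑ a ∈ range M,
      ‖inner ℂ (KO hz (b : ℝ) v) (KO hz (a : ℝ) v)‖ ≤ ε * M := by
    intro b _
    simp_rw [hterm]
    exact hL0 M (le_max_left _ _) (-(b : ℤ))
  calc _ ≤ ∑ _b ∈ range M, ε * M := sum_le_sum hrow
    _ = ε * (M : ℝ) ^ 2 := by rw [sum_const, card_range, nsmul_eq_mul]; ring

theorem KO_continuous {z : ℝ → X → X} (hz : Flow μ z) (u : ℝ) : Continuous (KO hz u) :=
  (KO hz u).continuous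

/-- extension of the estimate -/
theorem est_ext {z : ℝ → X → X} (hz : Flow μ z) (G : Lp ℂ 2 μ) (M : ℕ) (R : ℝ)
    (h : ∀ (h : X → ℂ) (hh : Bd h), ‖inner ℂ G (toL hh : Lp ℂ 2 μ)‖ ^ 2 ≤
      (∑ a ∈ range M, ∑ b ∈ range M, ‖inner ℂ (KO hz (b : ℝ) (toL hh)) (KO hz (a : ℝ) (toL hh))‖)
        * R) (w : Lp ℂ 2 μ) : ‖inner ℂ G w‖ ^ 2 ≤
      (∑ a ∈ range M, ∑ b ∈ range M, ‖inner ℂ (KO hz (b : ℝ) w) (KO hz (a : ℝ) w)‖) * R := by
  have hc : IsClosed {w : Lp ℂ 2 μ | ‖inner ℂ G w‖ ^ 2 ≤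
      (∑ a ∈ range M, ∑ b ∈ range M, ‖inner ℂ (KO hz (b : ℝ) w) (KO hz (a : ℝ) w)‖) * R} := by
    apply isClosed_le
    · exact ((continuous_const.inner continuous_id).norm).pow 2
    · refine Continuous.mul ?_ continuous_const
      refine continuous_finsetSum _ fun a _ => continuous_finsetSum _ fun b _ => ?_
      exact ((KO_continuous hz _).inner (KO_continuous hz _)).norm
  have hsub : {w : Lp ℂ 2 μ | ∃ (h : X → ℂ) (hh : Bd h), w = toL hh} ⊆ {w : Lp ℂ 2 μ |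
      ‖inner ℂ G w‖ ^ 2 ≤
      (∑ a ∈ range M, ∑ b ∈ range M, ‖inner ℂ (KO hz (b : ℝ) w) (KO hz (a : ℝ) w)‖) * R} := by
    rintro w ⟨g, hg, rfl⟩
    exact h g hg
  have h1 := hc.closure_subset_iff.2 hsub
  rw [dense_bd.closure_eq] at h1
  exact h1 (Set.mem_univ w)

theorem t_RL (hRW : S_RW) : S_RL := by
  intro X _ μ _ T hT Z ω hω hZ x hx r hr hs N hN hmix U hU j f hf
  obtain ⟨G, hG, hGn⟩ := repr (act_pw hT) (U := U) j hf
  refine ⟨G, hG, hGn, fun η => ?_⟩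
  rw [← Submodule.orthogonal_orthogonal_eq_closure, Submodule.mem_orthogonal]
  intro v hv
  have hz : Flow μ (fun u : ℝ => Z (u • η)) := flow_of_RF hZ η
  have hvE : ∀ f : X → ℂ, ∀ hf : f ∈ EigF μ (fun u : ℝ => Z (u • η)),
      inner ℂ v (toL hf.1) = 0 := by
    intro f hf
    have h2 := (Submodule.mem_orthogonal _ v).1 hv (toL hf.1) (Submodule.subset_span ⟨f, hf, rfl⟩)
    rw [← inner_conj_symm, h2, map_zero]
  obtain ⟨K, hK1, hK⟩ := Bd.common hf
  set R : ℝ := (K ^ (N + 2)) ^ 2 with hR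
  have hR0 : 0 < R := by positivity
  have hle : ∀ ε : ℝ, 0 < ε → ‖inner ℂ G v‖ ^ 2 ≤ ε * R := by
    intro ε hε
    obtain ⟨M, hM, hsum⟩ := avg_zero hz v hvE ε hε
    have hM0 : (0 : ℝ) < M := by exact_mod_cast hM
    have h1 := est_ext hz G M (R / (M : ℝ) ^ 2) (by
      intro h hh
      rw [← hG h hh]
      set Sg : ℝ := ∑ a ∈ range M, ∑ b ∈ range M,
        ‖inner ℂ (KO hz (b : ℝ) (toL hh)) (KO hz (a : ℝ) (toL hh))‖ with hSg
      have h2 := hRW X μ T hT Z ω hω hZ x hx r hr hs N hN hmix U hU j f hf K hK1 hK h hh M hM η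
        (Sg / (M : ℝ) ^ 2) (by
          rw [div_mul_cancel₀ _ (by positivity), hSg]
          refine sum_le_sum fun a _ => sum_le_sum fun b _ => ?_
          exact le_of_eq (congrArg norm (int_inner hz hh (a : ℝ) (b : ℝ))))
      refine h2.trans (le_of_eq ?_)
      rw [hR]
      ring) v
    refine h1.trans ?_
    calc _ ≤ (ε * (M : ℝ) ^ 2) * (R / (M : ℝ) ^ 2) :=
          mul_le_mul_of_nonneg_right hsum (by positivity)
      _ = ε * R := by field_simp
  have h0 : ‖inner ℂ G v‖ ^ 2 ≤ 0 := by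
    apply le_of_forall_pos_le_add
    intro ε hε
    have h3 := hle (ε / R) (by positivity)
    rw [div_mul_cancel₀ _ hR0.ne'] at h3
    linarith
  have h4 : inner ℂ G v = 0 := by
    have h5 : ‖inner ℂ G v‖ = 0 := by
      have := norm_nonneg (inner ℂ G v)
      nlinarith
    exact norm_eq_zero.1 h5
  rw [← inner_conj_symm, h4, map_zero]

end Pool.Agent.W978.LYRL
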